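import Mathlib
import Pool.Agent.H562R2.Sdit.Det

set_option autoImplicit false
set_option linter.unusedSectionVars false

/-!
# Symbolic matrices with a large corner of small triangular depth (in unknown bases)

`A(x) = ∑ x_k A_k`.  Suppose that for some invertible matrices `P, Q` over some field of
characteristic zero, `P A(x) Q` has a principal corner of size `≥ n - r` which is block triangular
with `p` diagonal blocks, each of which is a diagonal matrix.  Then `det A(x) ≠ 0` iff
`det A(c) ≠ 0` for some point `c` of an explicit set of at most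
`((n+1)(m(n+1)+1))^(r(2p+1)+1)` integer points.
-/

namespace Pool.Agent.Results.MP_64d474_lc.BorderedTriangular

open Finset

noncomputable section

/-- The symbolic matrix `∑ x_k A_k`. -/
def symbolic {n m : ℕ} (A : Fin m → Matrix (Fin n) (Fin n) ℤ) :
    Matrix (Fin n) (Fin n) (MvPolynomial (Fin m) ℤ) :=
  Matrix.of fun i j => ∑ k, MvPolynomial.C (A k i j) * MvPolynomial.X k

/-- The integer matrix `∑ c_k A_k`. -/
def value {n m : ℕ} (A : Fin m → Matrix (Fin n) (Fin n) ℤ) (c : Fin m → ℤ) :
    Matrix (Fin n) (Fin n) ℤ := Matrix.of fun i j => ∑ k, A k i j * c k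

/-- The points `c_k = ∑_{t < T} y_t z_t^k` with `0 ≤ y_t ≤ n` and `0 ≤ z_t ≤ m(n+1)`
(`k = 0,…,m-1`, `0^0 = 1`). -/
def points (n m T : ℕ) : Finset (Fin m → ℤ) :=
  (univ : Finset (Fin T → Fin (n + 1) × Fin (m * (n + 1) + 1))).image fun s =>
    fun k : Fin m => ∑ t, (((s t).1 : ℕ) : ℤ) * (((s t).2 : ℕ) : ℤ) ^ (k : ℕ)

/-- `P A_k Q` (over `L`) restricted to `J × J` is, for all `k` simultaneously, block triangular with
`p` diagonal blocks, each of them diagonal: the index `i ∈ J` lies in block `lev i < p`, and an
off-diagonal entry `(i,j)` can be nonzero only if `lev i < lev j`. -/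
def TriangularCorner {n m : ℕ} (A : Fin m → Matrix (Fin n) (Fin n) ℤ) (p r : ℕ) (L : Type)
    [Field L] : Prop :=
  ∃ (P Q : Matrix (Fin n) (Fin n) L) (J : Finset (Fin n)) (lev : Fin n → ℕ),
    P.det ≠ 0 ∧ Q.det ≠ 0 ∧ n ≤ J.card + r ∧ (∀ i ∈ J, lev i < p) ∧
    ∀ k, ∀ i ∈ J, ∀ j ∈ J, i ≠ j → (P * (A k).map (Int.cast : ℤ → L) * Q) i j ≠ 0 → lev i < lev j

lemma det_value {n m : ℕ} (A : Fin m → Matrix (Fin n) (Fin n) ℤ) (c : Fin m → ℤ) :
    (value A c).det = MvPolynomial.eval c (symbolic A).det := by
  rw [RingHom.map_det]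
  congr 1
  ext i j
  simp [value, symbolic]

open H562R2.Sdit in
/-- **Result.** Let `A_1,…,A_m` be integer `n × n` matrices such that over some field `L` of
characteristic zero, after multiplication by invertible matrices `P, Q`, all of them have a common
principal corner of size at least `n - r` that is block triangular with `p` diagonal blocks, each
diagonal (`TriangularCorner`).  Then the symbolic determinant is nonzero iff it is nonzero at one of
the explicit points `points n m T`, `T = r(2p+1)+1`; there are at most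
`((n+1)(m(n+1)+1))^T` of them, with coordinates between `0` and `T n (m(n+1)+1)^m`. -/
theorem result (n m p r : ℕ) (A : Fin m → Matrix (Fin n) (Fin n) ℤ) (L : Type) [Field L]
    [CharZero L] (hA : TriangularCorner A p r L) :
    ((symbolic A).det ≠ 0 ↔ ∃ c ∈ points n m (r * (2 * p + 1) + 1), (value A c).det ≠ 0) ∧
    (points n m (r * (2 * p + 1) + 1)).card ≤
      ((n + 1) * (m * (n + 1) + 1)) ^ (r * (2 * p + 1) + 1) ∧
    (∀ c ∈ points n m (r * (2 * p + 1) + 1), ∀ k, 0 ≤ c k ∧
      c k ≤ (r * (2 * p + 1) + 1 : ℕ) * ((n : ℤ) * ((m * (n + 1) + 1 : ℕ) : ℤ) ^ m)) := by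
  classical
  set T := r * (2 * p + 1) + 1 with hT
  refine ⟨⟨?_, ?_⟩, ?_, ?_⟩
  · -- hitting
    intro hne
    obtain ⟨P, Q, J, lev, hP, hQ, hJ, hlev, htri⟩ := hA
    let α : Fin n → Fin n → Fin m → L := fun i j k => (P * (A k).map (Int.cast : ℤ → L) * Q) i j
    let φ : MvPolynomial (Fin m) ℤ →+* MvPolynomial (Fin m) L := MvPolynomial.map (Int.castRingHom L)
    have hφ : Function.Injective φ :=
      MvPolynomial.map_injective _ (RingHom.injective_int (Int.castRingHom L))
    have hmat : (Matrix.of fun i j => lin (α i j)) =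
        P.map MvPolynomial.C * (symbolic A).map φ * Q.map MvPolynomial.C := by
      ext1 i j
      simp only [Matrix.of_apply, Matrix.mul_apply, Matrix.map_apply, symbolic, lin, α]
      simp only [map_sum, map_mul, φ, MvPolynomial.map_C, MvPolynomial.map_X, Finset.sum_mul,
        Finset.mul_sum, Int.coe_castRingHom]
      rw [Finset.sum_comm]
      refine Finset.sum_congr rfl fun a _ => ?_
      rw [Finset.sum_comm]
      refine Finset.sum_congr rfl fun b _ => ?_
      refine Finset.sum_congr rfl fun c _ => ?_
      ring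
    set f := (Matrix.of fun i j => lin (α i j)).det with hf
    have hfeq : f = MvPolynomial.C P.det * φ (symbolic A).det * MvPolynomial.C Q.det := by
      rw [hf, hmat, Matrix.det_mul, Matrix.det_mul]
      have e1 : (P.map (MvPolynomial.C : L →+* MvPolynomial (Fin m) L)).det = MvPolynomial.C P.det :=
        (RingHom.map_det _ _).symm
      have e2 : (Q.map (MvPolynomial.C : L →+* MvPolynomial (Fin m) L)).det = MvPolynomial.C Q.det :=
        (RingHom.map_det _ _).symm
      have e3 : ((symbolic A).map φ).det = φ (symbolic A).det := (RingHom.map_det _ _).symm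
      rw [e1, e2, e3]
    have hf0 : f ≠ 0 := by
      rw [hfeq]
      refine mul_ne_zero (mul_ne_zero ?_ ?_) ?_
      · simpa using hP
      · intro h0
        exact hne (hφ (by rw [h0, map_zero]))
      · simpa using hQ
    have hJ' : (univ \ J).card ≤ r := by
      rw [Finset.card_sdiff_of_subset (Finset.subset_univ _), Finset.card_univ, Fintype.card_fin]
      omega
    have hmem := det_mem α J r p hJ' lev hlev (by
      intro i hi j hj hij hne'
      obtain ⟨k, hk⟩ : ∃ k, α i j k ≠ 0 := by
        by_contra hcon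
        push Not at hcon
        exact hne' (funext hcon)
      exact htri k i hi j hj hij hk)
    obtain ⟨J', hJ'J, R', d', hRd, ha', hmem'⟩ := discard J (fun j => α j j) (p * r) r f hmem hf0
    let v : Fin (m * (n + 1) + 1) → Fin m → L := fun z k => (((z : ℕ) : L)) ^ (k : ℕ)
    have hJn : J'.card ≤ n := by
      have := Finset.card_le_univ J'
      simpa using this
    have hcardZ : Fintype.card (Fin (m * (n + 1) + 1)) = m * (n + 1) + 1 := Fintype.card_fin _
    obtain ⟨s, hs, x, hx, hxe⟩ := main (Z := Fin (m * (n + 1) + 1)) v m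
      (fun c hc => moment _ c hc) (by rw [hcardZ]; nlinarith) R' d' J' (fun j => α j j) ha'
      (by rw [hcardZ]; nlinarith [Nat.mul_le_mul_left m hJn]) f hmem' hf0
    have hdeg : f.totalDegree ≤ n := by
      rw [hf, Matrix.det_apply]
      refine (MvPolynomial.totalDegree_finsetSum _ _).trans ?_
      apply Finset.sup_le
      intro σ _
      rw [Units.smul_def, zsmul_eq_mul]
      refine (MvPolynomial.totalDegree_mul _ _).trans ?_
      have h1 : ((Equiv.Perm.sign σ : ℤ) : MvPolynomial (Fin m) L).totalDegree = 0 := by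
        have : ((Equiv.Perm.sign σ : ℤ) : MvPolynomial (Fin m) L)
            = MvPolynomial.C ((Equiv.Perm.sign σ : ℤ) : L) := by simp
        rw [this]; exact MvPolynomial.totalDegree_C _
      rw [h1, zero_add]
      refine (MvPolynomial.totalDegree_finsetProd _ _).trans ?_
      refine (Finset.sum_le_card_nsmul _ _ 1 fun i _ => totalDegree_lin_le _).trans ?_
      simp
    obtain ⟨y, hy, hye⟩ := grid v f n hdeg s x hx hxe
    have hsT : s.card ≤ Fintype.card (Fin T) := by
      rw [Fintype.card_fin, hT]
      have e : r * (2 * p + 1) = r + 2 * (p * r) := by ring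
      rw [e]
      omega
    obtain ⟨emb⟩ : Nonempty (s ↪ Fin T) := Function.Embedding.nonempty_of_card_le (by
      simpa using hsT)
    let sel : Fin T → Fin (n + 1) × Fin (m * (n + 1) + 1) :=
      Function.extend emb (fun z : s => (⟨y z, Nat.lt_succ_of_le (hy z)⟩, (z : Fin _)))
        (fun _ => (0, 0))
    let c : Fin m → ℤ := fun k => ∑ t, (((sel t).1 : ℕ) : ℤ) * (((sel t).2 : ℕ) : ℤ) ^ (k : ℕ)
    have hc : ∀ k, ((c k : ℤ) : L) = (∑ z ∈ s, ((y z : ℕ) : L) • v z) k := by
      intro k
      simp only [c, Finset.sum_apply, Pi.smul_apply, smul_eq_mul, v]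
      push_cast
      rw [← Finset.sum_coe_sort s]
      have h1 : ∀ t : Fin T, t ∉ Set.range emb → sel t = (0, 0) := by
        intro t ht
        simp only [sel]
        rw [Function.extend_apply']
        rintro ⟨z, hz⟩
        exact ht ⟨z, hz⟩
      have h2 : ∀ z : s, sel (emb z) = (⟨y z, Nat.lt_succ_of_le (hy z)⟩, (z : Fin _)) := by
        intro z
        simp only [sel]
        rw [emb.injective.extend_apply]
      rw [← Finset.sum_subset (Finset.subset_univ (univ.map emb))]
      · rw [Finset.sum_map]
        refine Finset.sum_congr rfl fun z _ => ?_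
        rw [h2 z]
      · intro t _ ht
        rw [h1 t (by
          rintro ⟨z, hz⟩
          exact ht (by rw [Finset.mem_map]; exact ⟨z, Finset.mem_univ _, hz⟩))]
        simp
    refine ⟨c, Finset.mem_image.mpr ⟨sel, Finset.mem_univ _, rfl⟩, ?_⟩
    intro h0
    apply hye
    have hcc : (∑ z ∈ s, ((y z : ℕ) : L) • v z) = fun k => ((c k : ℤ) : L) := by
      funext k; exact (hc k).symm
    rw [hcc, hfeq, map_mul, map_mul]
    have h3 : MvPolynomial.eval (fun k => ((c k : ℤ) : L)) (φ (symbolic A).det)
        = ((MvPolynomial.eval c (symbolic A).det : ℤ) : L) := by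
      have : (MvPolynomial.eval (fun k => ((c k : ℤ) : L))).comp φ
          = (Int.castRingHom L).comp (MvPolynomial.eval c) := by
        apply MvPolynomial.ringHom_ext
        · intro z; simp [φ]
        · intro i; simp [φ]
      exact RingHom.congr_fun this _
    rw [h3, ← det_value, h0]
    simp
  · -- converse
    rintro ⟨c, _, hc⟩ h0
    apply hc
    rw [det_value, h0, map_zero]
  · unfold points
    refine Finset.card_image_le.trans ?_
    simp [Fintype.card_pi, Fintype.card_prod]
  · intro c hc k
    obtain ⟨s, _, rfl⟩ := Finset.mem_image.mp hc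
    simp only
    constructor
    · positivity
    · have h1 : ∀ t ∈ (univ : Finset (Fin T)),
          (((s t).1 : ℕ) : ℤ) * (((s t).2 : ℕ) : ℤ) ^ (k : ℕ) ≤
          (n : ℤ) * ((m * (n + 1) + 1 : ℕ) : ℤ) ^ m := by
        intro t _
        have e1 : (((s t).1 : ℕ) : ℤ) ≤ n := by
          have := (s t).1.2
          exact_mod_cast Nat.lt_succ_iff.mp this
        have e2 : (((s t).2 : ℕ) : ℤ) ≤ ((m * (n + 1) + 1 : ℕ) : ℤ) := by
          have := (s t).2.2
          exact_mod_cast this.le
        have e3 : (((s t).2 : ℕ) : ℤ) ^ (k : ℕ) ≤ ((m * (n + 1) + 1 : ℕ) : ℤ) ^ m := by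
          calc (((s t).2 : ℕ) : ℤ) ^ (k : ℕ) ≤ ((m * (n + 1) + 1 : ℕ) : ℤ) ^ (k : ℕ) :=
                pow_le_pow_left₀ (by positivity) e2 _
            _ ≤ ((m * (n + 1) + 1 : ℕ) : ℤ) ^ m := by
                apply pow_le_pow_right₀
                · push_cast; nlinarith [Nat.zero_le (m * (n + 1))]
                · exact k.2.le
        exact mul_le_mul e1 e3 (by positivity) (by positivity)
      refine (Finset.sum_le_card_nsmul _ _ _ h1).trans ?_
      simp

end

end Pool.Agent.Results.MP_64d474_lc.BorderedTriangular
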