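import Mathlib
import Pool.Agent.H659R2.PC

/-!
# Symbolic determinants of matrix spaces closed under `k`-th powers

Let `B_i` (`i ∈ σ`) be finitely many `n × n` matrices over a field of characteristic zero whose
span is closed under `X ↦ X ^ k` for some `k ≥ 2` (for instance: skew-symmetric or symmetric
matrices, Jordan algebras, Jordan triple systems, every eigenspace of an automorphism or
anti-automorphism of the matrix algebra with eigenvalue a root of unity, block cyclic matrices,
and intersections of such spaces).  We prove the correctness of a deterministic augmentation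
procedure which decides whether `det (∑ x_i B_i) = 0`.
-/

open Matrix

namespace Pool.Agent.Results.MP_64d474_lc.PowerClosed

/-- The symbolic matrix `∑ i, x_i B_i` with entries in `K[x_i : i ∈ σ]`. -/
noncomputable def symbolicMatrix {K n σ : Type*} [Field K] [Fintype σ]
    (B : σ → Matrix n n K) : Matrix n n (MvPolynomial σ K) :=
  ∑ i, (MvPolynomial.X i : MvPolynomial σ K) • (B i).map MvPolynomial.C

/-- the span of the coefficient matrices -/
def coeffSpace {K n σ : Type*} [Field K] (B : σ → Matrix n n K) : Submodule K (Matrix n n K) :=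
  Submodule.span K (Set.range B)

/-- the sum of the coefficient matrices listed in `l` (with repetitions) -/
def listSum {K n σ : Type*} [Field K] (B : σ → Matrix n n K) (l : List σ) : Matrix n n K :=
  (l.map B).sum

/-- `P` is the projection onto the kernel of `A` along the image of `A`. -/
structure IsCoreProjection {K n : Type*} [Field K] [Fintype n] [DecidableEq n]
    (A P : Matrix n n K) : Prop where
  idem : P * P = P
  mulP : A * P = 0
  Pmul : P * A = 0
  unit : IsUnit (A + P)

/-- the test value `tr ((P X P) ^ (k - 1))` -/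
def test {K n : Type*} [Field K] [Fintype n] [DecidableEq n] (k : ℕ) (P X : Matrix n n K) : K :=
  ((P * X * P) ^ (k - 1)).trace

/-- the augmented matrix `(A + P X P) ^ (1 + (k - 1) n)` -/
def next {K n : Type*} [Field K] [Fintype n] [DecidableEq n] (k : ℕ) (A P X : Matrix n n K) :
    Matrix n n K :=
  (A + P * X * P) ^ (1 + (k - 1) * Fintype.card n)

section proofs
variable {K n σ : Type*} [Field K] [CharZero K] [Fintype n] [DecidableEq n] [Fintype σ]

omit [CharZero K] in
lemma core_iff {A P : Matrix n n K} : IsCoreProjection A P ↔ H659R2.PC.IsCore A P :=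
  ⟨fun h => ⟨h.1, h.2, h.3, h.4⟩, fun h => ⟨h.1, h.2, h.3, h.4⟩⟩

omit [CharZero K] [Fintype n] [DecidableEq n] in
lemma mem_coeffSpace {B : σ → Matrix n n K} {X : Matrix n n K} :
    X ∈ coeffSpace B ↔ ∃ c : σ → K, ∑ i, c i • B i = X :=
  Submodule.mem_span_range_iff_exists_fun K

lemma det_ne_zero_iff (B : σ → Matrix n n K) :
    (symbolicMatrix B).det ≠ 0 ↔ ∃ X ∈ coeffSpace B, IsUnit X := by
  have hev : ∀ c : σ → K, MvPolynomial.eval c (symbolicMatrix B).det
      = (∑ i, c i • B i).det := by
    intro c
    rw [RingHom.map_det]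
    congr 1
    rw [symbolicMatrix, map_sum]
    refine Finset.sum_congr rfl fun i _ => ?_
    ext a b
    simp [Matrix.smul_apply]
  constructor
  · intro h
    by_contra hcon
    apply h
    apply MvPolynomial.funext
    intro c
    rw [hev, map_zero]
    by_contra h0
    exact hcon ⟨_, mem_coeffSpace.2 ⟨c, rfl⟩,
      (Matrix.isUnit_iff_isUnit_det _).2 (isUnit_iff_ne_zero.2 h0)⟩
  · rintro ⟨X, hX, hu⟩ h
    obtain ⟨c, rfl⟩ := mem_coeffSpace.1 hX
    have := hev c
    rw [h, map_zero] at this
    exact ((Matrix.isUnit_iff_isUnit_det _).1 hu).ne_zero this.symm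

/-- the finite test suffices -/
lemma test_all {k : ℕ} {B : σ → Matrix n n K} {P : Matrix n n K}
    (h : ∀ l : List σ, l.length ≤ k - 1 → test k P (listSum B l) = 0) :
    ∀ X ∈ coeffSpace B, ((P * X * P) ^ (k - 1)).trace = 0 := by
  intro X hX
  obtain ⟨c, rfl⟩ := mem_coeffSpace.1 hX
  have hsum : ∀ l : List σ, (l.map fun i => P * B i * P).sum = P * listSum B l * P := by
    intro l
    induction l with
    | nil => simp [listSum]
    | cons a l ih =>
      rw [List.map_cons, List.sum_cons, ih, listSum, listSum, List.map_cons, List.sum_cons,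
        mul_add, add_mul]
  have := H659R2.PC.polar (d := k - 1) (fun i => P * B i * P) (Matrix.traceLinearMap n K K)
    (fun l hl => by
      rw [hsum]
      exact h l hl) c
  have e : ∑ i, c i • (P * B i * P) = P * (∑ i, c i • B i) * P := by
    rw [Finset.mul_sum, Finset.sum_mul]
    refine Finset.sum_congr rfl fun i _ => ?_
    rw [mul_smul_comm, smul_mul_assoc]
  rw [e] at this
  exact this

lemma closed_iff {k : ℕ} (B : σ → Matrix n n K) :
    (∀ X ∈ coeffSpace B, X ^ k ∈ coeffSpace B) ↔
      ∀ l : List σ, l.length ≤ k → listSum B l ^ k ∈ coeffSpace B := by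
  constructor
  · intro h l _
    refine h _ ?_
    rw [listSum]
    refine list_sum_mem ?_
    intro X hX
    obtain ⟨i, -, rfl⟩ := List.mem_map.1 hX
    exact Submodule.subset_span ⟨i, rfl⟩
  · intro h X hX
    obtain ⟨c, rfl⟩ := mem_coeffSpace.1 hX
    rw [← Submodule.Quotient.mk_eq_zero, ← Module.forall_dual_apply_eq_zero_iff K]
    intro φ
    have := H659R2.PC.polar (d := k) B (φ ∘ₗ (coeffSpace B).mkQ) (fun l hl => by
      rw [LinearMap.comp_apply, Submodule.mkQ_apply]
      show φ (Submodule.Quotient.mk (listSum B l ^ k)) = 0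
      rw [(Submodule.Quotient.mk_eq_zero _).2 (h l hl), map_zero]) c
    exact this

end proofs

/-- **Symbolic determinants of power closed matrix spaces.** -/
theorem result {K n σ : Type*} [Field K] [CharZero K] [Fintype n] [DecidableEq n] [Fintype σ]
    (B : σ → Matrix n n K) (k : ℕ) (hk : 2 ≤ k) :
    -- the hypothesis is a finite test
    ((∀ X ∈ coeffSpace B, X ^ k ∈ coeffSpace B) ↔
      ∀ l : List σ, l.length ≤ k → listSum B l ^ k ∈ coeffSpace B) ∧
    ((∀ X ∈ coeffSpace B, X ^ k ∈ coeffSpace B) →
      -- the augmentation procedure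
      (∀ A ∈ coeffSpace B, (A * A).rank = A.rank → ∃ P, IsCoreProjection A P ∧
        (∀ P', IsCoreProjection A P' → P' = P) ∧
        ((∀ l : List σ, l.length ≤ k - 1 → test k P (listSum B l) = 0) →
          ((symbolicMatrix B).det = 0 ↔ A.det = 0)) ∧
        (∀ l : List σ, test k P (listSum B l) ≠ 0 →
          next k A P (listSum B l) ∈ coeffSpace B ∧
          (next k A P (listSum B l) * next k A P (listSum B l)).rank
            = (next k A P (listSum B l)).rank ∧
          A.rank < (next k A P (listSum B l)).rank)) ∧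
      -- the singularity certificate
      ((symbolicMatrix B).det = 0 ↔ ∃ A ∈ coeffSpace B, ∃ P, IsCoreProjection A P ∧ P ≠ 0 ∧
        ∀ l : List σ, l.length ≤ k - 1 → test k P (listSum B l) = 0)) := by
  obtain ⟨d, rfl⟩ : ∃ d, k = d + 1 := ⟨k - 1, by omega⟩
  have hd : 1 ≤ d := by omega
  refine ⟨closed_iff B, fun hB => ?_⟩
  have hS : H659R2.PC.PowerClosed (d + 1) (coeffSpace B) := hB
  have hlist : ∀ l : List σ, listSum B l ∈ coeffSpace B := by
    intro l
    refine list_sum_mem ?_
    intro X hX
    obtain ⟨i, -, rfl⟩ := List.mem_map.1 hX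
    exact Submodule.subset_span ⟨i, rfl⟩
  -- the certificate
  have hcert : ∀ A ∈ coeffSpace B, ∀ P, IsCoreProjection A P →
      (∀ l : List σ, l.length ≤ d → test (d + 1) P (listSum B l) = 0) →
      ∀ C ∈ coeffSpace B, IsUnit C → P = 0 := by
    intro A hA P hP ht C hC hCu
    have hnil : ∀ X ∈ coeffSpace B, IsNilpotent (P * X * P) := fun X hX =>
      H659R2.PC.nilpotent_corner hd hS hA (core_iff.1 hP) (test_all (k := d + 1) ht) hX
    exact H659R2.PC.certificate hd hS hA (core_iff.1 hP) hnil hC hCu
  have hP0 : ∀ A P : Matrix n n K, IsCoreProjection A P → (P = 0 ↔ IsUnit A) := by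
    intro A P hP
    constructor
    · intro h
      have := hP.unit
      rwa [h, add_zero] at this
    · intro h
      obtain ⟨U, rfl⟩ := h
      have := congrArg (fun M => (↑U⁻¹ : Matrix n n K) * M) hP.mulP
      simpa [← mul_assoc] using this
  have hproc : ∀ A ∈ coeffSpace B, ∀ P, IsCoreProjection A P →
        ∀ l : List σ, test (d + 1) P (listSum B l) ≠ 0 →
          next (d + 1) A P (listSum B l) ∈ coeffSpace B ∧
          (next (d + 1) A P (listSum B l) * next (d + 1) A P (listSum B l)).rank
            = (next (d + 1) A P (listSum B l)).rank ∧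
          A.rank < (next (d + 1) A P (listSum B l)).rank := by
    intro A hA P hP l hl
    exact H659R2.PC.augment hd hS hA (core_iff.1 hP) (hlist l) hl
  refine ⟨?_, ?_⟩
  · intro A hA hr
    obtain ⟨P, hP⟩ := H659R2.PC.exists_core hr
    refine ⟨P, core_iff.2 hP, ?_, ?_, hproc A hA P (core_iff.2 hP)⟩
    · intro P' hP'
      obtain ⟨q, N, -, hN⟩ := H659R2.PC.fitting A
      rw [← (core_iff.1 hP').eq_fitting hN, ← hP.eq_fitting hN]
    · intro ht
      constructor
      · intro h0
        by_contra hdet
        exact (det_ne_zero_iff B).2 ⟨A, hA,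
          (Matrix.isUnit_iff_isUnit_det _).2 (isUnit_iff_ne_zero.2 hdet)⟩ h0
      · intro h0
        by_contra hne
        obtain ⟨C, hC, hCu⟩ := (det_ne_zero_iff B).1 hne
        have := hcert A hA P (core_iff.2 hP) ht C hC hCu
        have hu := (hP0 A P (core_iff.2 hP)).1 this
        exact ((Matrix.isUnit_iff_isUnit_det _).1 hu).ne_zero h0
  · constructor
    · intro h0
      classical
      -- choose `A` of maximal rank
      have hex : ∃ r, ∃ A ∈ coeffSpace B, (A * A).rank = A.rank ∧ A.rank = r :=
        ⟨_, 0, Submodule.zero_mem _, by rw [mul_zero], rfl⟩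
      have hbd : ∀ r, (∃ A ∈ coeffSpace B, (A * A).rank = A.rank ∧ A.rank = r) →
          r ≤ Fintype.card n := by
        rintro r ⟨A, -, -, rfl⟩
        exact A.rank_le_card_width
      set r := Nat.findGreatest
        (fun r => ∃ A ∈ coeffSpace B, (A * A).rank = A.rank ∧ A.rank = r) (Fintype.card n)
        with hr
      obtain ⟨r0, hr0⟩ := hex
      have hspec := Nat.findGreatest_spec (P := fun r => ∃ A ∈ coeffSpace B,
        (A * A).rank = A.rank ∧ A.rank = r) (hbd r0 hr0) hr0
      obtain ⟨A, hA, hAr, hArr⟩ := hspec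
      obtain ⟨P, hP⟩ := H659R2.PC.exists_core hAr
      refine ⟨A, hA, P, core_iff.2 hP, ?_, ?_⟩
      · intro hP'
        have hu := (hP0 A P (core_iff.2 hP)).1 hP'
        exact (det_ne_zero_iff B).2 ⟨A, hA, hu⟩ h0
      · intro l _
        by_contra hne
        obtain ⟨h1, h2, h3⟩ := hproc A hA P (core_iff.2 hP) l hne
        have h4 := Nat.le_findGreatest (P := fun r => ∃ A ∈ coeffSpace B,
          (A * A).rank = A.rank ∧ A.rank = r) (hbd _ ⟨_, h1, h2, rfl⟩) ⟨_, h1, h2, rfl⟩
        omega
    · rintro ⟨A, hA, P, hP, hPne, ht⟩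
      by_contra hne
      obtain ⟨C, hC, hCu⟩ := (det_ne_zero_iff B).1 hne
      exact hPne (hcert A hA P hP ht C hC hCu)

end Pool.Agent.Results.MP_64d474_lc.PowerClosed
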