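import Mathlib
import Pool.Agent.H530R2.SubDet

/-!
# A subexponential deterministic algorithm for symbolic determinant identity testing

`det (A₀ + x_1 A_1 + … + x_n A_n)` with `∑ rank A_i ≤ s` is tested by evaluating the determinant
at `(n s)^(O(s^(2/3)))` explicit integer points.
-/

namespace Pool.Agent.Results.MP_64d474_lc.SubexponentialSDIT

open MvPolynomial

/-- The symbolic matrix `A₀ + x_0 A_0 + … + x_(n-1) A_(n-1)`. -/
noncomputable def symbolic {F : Type*} [Field F] {n N : ℕ} (A₀ : Matrix (Fin N) (Fin N) F)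
    (A : Fin n → Matrix (Fin N) (Fin N) F) : Matrix (Fin N) (Fin N) (MvPolynomial (Fin n) F) :=
  A₀.map C + ∑ i, (X i : MvPolynomial (Fin n) F) • (A i).map C

/-- `t = ⌊r³ / r⌋`, which is `r²` for `r ≥ 1` -/
def cnt (r : ℕ) : ℕ := r ^ 3 / r

/-- `brk` cuts the variables `x_0, …, x_(n-1)` into `t + 1` consecutive blocks: the variable `x_i`
is in the block whose number is the number of the break points which are at most `i`. -/
def block {n t : ℕ} (brk : Fin t → Fin (n + 1)) (i : Fin n) : Fin (t + 1) :=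
  ⟨(Finset.univ.filter fun l : Fin t => (brk l : ℕ) ≤ i).card, by
    refine Nat.lt_succ_of_le ((Finset.card_le_univ _).trans ?_)
    simp⟩

/-- The point given by positions `pos` with values `val`, by break points `brk`, and by seeds `y`
and `u`: the `i`-th coordinate is the value at the position `i` if `i` is one of the positions,
and `∑_k y_k u_b^((i+1)k)` otherwise, where `b` is the number of the block of `i`. -/
def point {n t ℓ : ℕ} (pos : Fin t → Fin (n + 1)) (val : Fin t → ℕ)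
    (brk : Fin t → Fin (n + 1)) (y : Fin ℓ → ℕ) (u : Fin (t + 1) → ℕ) : Fin n → ℤ :=
  fun i => if ∃ l, (pos l : ℕ) = i then ∑ l, (if (pos l : ℕ) = i then (val l : ℤ) else 0)
    else ∑ k : Fin ℓ, (y k : ℤ) * (u (block brk i) : ℤ) ^ (((i : ℕ) + 1) * (k : ℕ))

/-- All points with `t = cnt r`, `ℓ = 4r²`, values and seeds `y` in `{0, …, r³}` and seeds `u` in
`{0, …, 4r²·n·r³}`. -/
def points (n r : ℕ) : Finset (Fin n → ℤ) :=
  (Finset.univ : Finset ((Fin (cnt r) → Fin (n + 1)) × (Fin (cnt r) → Fin (r ^ 3 + 1)) ×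
      (Fin (cnt r) → Fin (n + 1)) × (Fin (4 * r ^ 2) → Fin (r ^ 3 + 1)) ×
      (Fin (cnt r + 1) → Fin (4 * r ^ 2 * n * r ^ 3 + 1)))).image
    fun q => point q.1 (fun l => (q.2.1 l : ℕ)) q.2.2.1 (fun k => (q.2.2.2.1 k : ℕ))
      (fun c => (q.2.2.2.2 c : ℕ))

theorem cnt_le (r : ℕ) : cnt r ≤ r ^ 2 := by
  unfold cnt
  rcases Nat.eq_zero_or_pos r with h | h
  · subst h; simp
  · rw [Nat.div_le_iff_le_mul_add_pred h]
    have : r ^ 3 = r * r ^ 2 := by ring
    omega

theorem points_card (n r : ℕ) (hr : 1 ≤ r) :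
    (points n r).card ≤ (4 * r ^ 2 * (n + 1) * (r ^ 3 + 1)) ^ (9 * r ^ 2) := by
  unfold points
  refine Finset.card_image_le.trans ?_
  rw [Finset.card_univ]
  simp only [Fintype.card_prod, Fintype.card_pi, Fintype.card_fin, Finset.prod_const,
    Finset.card_univ]
  have hc : cnt r ≤ r ^ 2 := cnt_le r
  have hr2 : 1 ≤ r ^ 2 := Nat.one_le_pow _ _ hr
  set B := 4 * r ^ 2 * (n + 1) * (r ^ 3 + 1) with hB
  have hB1 : 1 ≤ B := by
    have : 0 < B := by positivity
    omega
  have h1 : n + 1 ≤ B := by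
    calc n + 1 = 1 * (n + 1) * 1 := by ring
      _ ≤ 4 * r ^ 2 * (n + 1) * (r ^ 3 + 1) := by gcongr <;> omega
  have h2 : r ^ 3 + 1 ≤ B := by
    calc r ^ 3 + 1 = 1 * 1 * (r ^ 3 + 1) := by ring
      _ ≤ 4 * r ^ 2 * (n + 1) * (r ^ 3 + 1) := by gcongr <;> omega
  have h3 : 4 * r ^ 2 * n * r ^ 3 + 1 ≤ B := by
    have : 4 * r ^ 2 * (n + 1) * (r ^ 3 + 1) = 4 * r ^ 2 * n * r ^ 3 + 4 * r ^ 2 * n +
      4 * r ^ 2 * r ^ 3 + 4 * r ^ 2 := by ring
    omega
  calc (n + 1) ^ cnt r * ((r ^ 3 + 1) ^ cnt r * ((n + 1) ^ cnt r * ((r ^ 3 + 1) ^ (4 * r ^ 2) *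
        (4 * r ^ 2 * n * r ^ 3 + 1) ^ (cnt r + 1))))
      ≤ B ^ (r ^ 2) * (B ^ (r ^ 2) * (B ^ (r ^ 2) * (B ^ (4 * r ^ 2) * B ^ (2 * r ^ 2)))) := by
        gcongr
        omega
    _ = B ^ (9 * r ^ 2) := by
        rw [← pow_add, ← pow_add, ← pow_add, ← pow_add]
        congr 1
        ring

theorem points_bound (n r : ℕ) (p : Fin n → ℤ) (hp : p ∈ points n r) (i : Fin n) :
    |p i| ≤ ((4 * r ^ 2 * r ^ 3 * (4 * r ^ 2 * n * r ^ 3 + 1) ^ (4 * r ^ 2 * n) : ℕ) : ℤ) := by
  unfold points at hp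
  rw [Finset.mem_image] at hp
  obtain ⟨⟨pos, val, brk, y, u⟩, _, rfl⟩ := hp
  simp only [point]
  have hc : cnt r ≤ 4 * r ^ 2 := (cnt_le r).trans (by omega)
  split_ifs with h
  · calc |∑ l, (if (pos l : ℕ) = i then ((val l : ℕ) : ℤ) else 0)|
        ≤ ∑ l, |(if (pos l : ℕ) = i then ((val l : ℕ) : ℤ) else 0)| :=
          Finset.abs_sum_le_sum_abs _ _
      _ ≤ ∑ l : Fin (cnt r), ((r ^ 3 : ℕ) : ℤ) := by
          apply Finset.sum_le_sum
          intro l _
          split_ifs
          · rw [abs_of_nonneg (by positivity)]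
            have := (val l).isLt
            exact_mod_cast Nat.lt_succ_iff.1 this
          · simp
      _ = ((cnt r * r ^ 3 * 1 : ℕ) : ℤ) := by simp
      _ ≤ _ := by
          apply Int.ofNat_le.2
          gcongr
          exact Nat.one_le_pow _ _ (by omega)
  · calc |∑ k, ((y k : ℕ) : ℤ) * ((u (block brk i) : ℕ) : ℤ) ^ (((i : ℕ) + 1) * (k : ℕ))|
        ≤ ∑ k, |((y k : ℕ) : ℤ) * ((u (block brk i) : ℕ) : ℤ) ^ (((i : ℕ) + 1) * (k : ℕ))| :=
          Finset.abs_sum_le_sum_abs _ _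
      _ ≤ ∑ k : Fin (4 * r ^ 2),
          ((r ^ 3 * (4 * r ^ 2 * n * r ^ 3 + 1) ^ (4 * r ^ 2 * n) : ℕ) : ℤ) := by
          apply Finset.sum_le_sum
          intro k _
          rw [abs_of_nonneg (by positivity)]
          have h1 := (y k).isLt
          have h2 := (u (block brk i)).isLt
          have h3 : ((i : ℕ) + 1) * (k : ℕ) ≤ 4 * r ^ 2 * n := by
            rw [mul_comm (4 * r ^ 2) n]
            exact Nat.mul_le_mul i.isLt k.isLt.le
          have h4 : (y k : ℕ) * (u (block brk i) : ℕ) ^ (((i : ℕ) + 1) * (k : ℕ)) ≤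
              r ^ 3 * (4 * r ^ 2 * n * r ^ 3 + 1) ^ (4 * r ^ 2 * n) := by
            calc (y k : ℕ) * (u (block brk i) : ℕ) ^ (((i : ℕ) + 1) * (k : ℕ))
                ≤ r ^ 3 * (4 * r ^ 2 * n * r ^ 3 + 1) ^ (((i : ℕ) + 1) * (k : ℕ)) := by
                  gcongr
                  omega
              _ ≤ _ := by
                  gcongr
                  omega
          exact_mod_cast h4
      _ = _ := by
          rw [Finset.sum_const, Finset.card_univ, Fintype.card_fin, nsmul_eq_mul]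
          push_cast
          ring

open Pool.Agent.H530R2 in
/-- a symbolic matrix as a sum of rank-one terms -/
theorem exists_symM {F : Type*} [Field F] {n N s : ℕ} (A₀ : Matrix (Fin N) (Fin N) F)
    (A : Fin n → Matrix (Fin N) (Fin N) F) (hs : ∑ i, (A i).rank ≤ s) :
    ∃ (s' : ℕ) (v : Fin s' → Fin n) (a b : Fin s' → Fin N → F),
      s' ≤ s ∧ symbolic A₀ A = symM A₀ v a b := by
  classical
  choose a b hab using fun i => exists_rank_factor (A i)
  have hcard : Fintype.card (Σ i : Fin n, Fin (A i).rank) = ∑ i, (A i).rank := by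
    rw [Fintype.card_sigma]
    simp
  set e : (Σ i : Fin n, Fin (A i).rank) ≃ Fin (Fintype.card (Σ i : Fin n, Fin (A i).rank)) :=
    Fintype.equivFin _ with he
  refine ⟨Fintype.card (Σ i : Fin n, Fin (A i).rank), fun x => (e.symm x).1,
    fun x => a (e.symm x).1 (e.symm x).2,
    fun x => b (e.symm x).1 (e.symm x).2, by rw [hcard]; exact hs, ?_⟩
  ext1 i j
  rw [symbolic, Matrix.add_apply, Matrix.map_apply, Matrix.sum_apply]
  simp only [symM, Matrix.smul_apply, Matrix.map_apply, smul_eq_mul]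
  congr 1
  rw [Equiv.sum_comp e.symm (fun x : (Σ i : Fin n, Fin (A i).rank) =>
    (X x.1 : MvPolynomial (Fin n) F) * C (a x.1 x.2 i * b x.1 x.2 j)), Fintype.sum_sigma]
  apply Finset.sum_congr rfl
  intro l _
  rw [hab l i j, map_sum, Finset.mul_sum]

theorem eval_det {F : Type*} [Field F] {n N : ℕ} (A₀ : Matrix (Fin N) (Fin N) F)
    (A : Fin n → Matrix (Fin N) (Fin N) F) (p : Fin n → F) :
    MvPolynomial.eval p (symbolic A₀ A).det = (A₀ + ∑ i, p i • A i).det := by
  rw [RingHom.map_det]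
  congr 1
  ext1 i j
  rw [RingHom.mapMatrix_apply, Matrix.map_apply, symbolic, Matrix.add_apply, Matrix.add_apply,
    Matrix.sum_apply, Matrix.sum_apply]
  simp [Matrix.smul_apply]

/-- **Subexponential deterministic symbolic determinant identity testing.** For all `n` and
`r ≥ 1` the explicit set `points n r` of at most `(4r²(n+1)(r³+1))^(9r²)` integer points, with
coordinates of polynomial bit length, has the following property: for all square matrices
`A₀, A_0, …, A_(n-1)` of any size over any field of characteristic zero with `∑ rank A_i ≤ r³`,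
the determinant of `A₀ + ∑ x_i A_i` is a nonzero polynomial if and only if
`det (A₀ + ∑ p_i A_i) ≠ 0` for some point `p` of the set. -/
theorem result {F : Type*} [Field F] [CharZero F] (n r : ℕ) (hr : 1 ≤ r) :
    (points n r).card ≤ (4 * r ^ 2 * (n + 1) * (r ^ 3 + 1)) ^ (9 * r ^ 2) ∧
    (∀ p ∈ points n r, ∀ i, |p i| ≤
      ((4 * r ^ 2 * r ^ 3 * (4 * r ^ 2 * n * r ^ 3 + 1) ^ (4 * r ^ 2 * n) : ℕ) : ℤ)) ∧
    ∀ (N : ℕ) (A₀ : Matrix (Fin N) (Fin N) F) (A : Fin n → Matrix (Fin N) (Fin N) F),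
      ∑ i, (A i).rank ≤ r ^ 3 →
      ((symbolic A₀ A).det ≠ 0 ↔
        ∃ p ∈ points n r, (A₀ + ∑ i, (p i : F) • A i).det ≠ 0) := by
  classical
  refine ⟨points_card n r hr, points_bound n r, ?_⟩
  intro N A₀ A hA
  constructor
  swap
  · rintro ⟨p, _, hp⟩ h0
    apply hp
    rw [← eval_det A₀ A (fun i => (p i : F)), h0, map_zero]
  intro hf0
  obtain ⟨s', vv, a, b, hs', hsym⟩ := exists_symM A₀ A hA
  by_contra hcon
  push Not at hcon
  have hcon' : ∀ p ∈ points n r,
      MvPolynomial.eval (fun i => (p i : F)) (Pool.Agent.H530R2.symM A₀ vv a b).det = 0 := by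
    intro p hp
    rw [← hsym, eval_det A₀ A (fun i => (p i : F))]
    exact hcon p hp
  rw [hsym] at hf0
  obtain ⟨H, bl, hH, hbl, v, y, u, hv, hy, hu, hev⟩ :=
    Pool.Agent.H530R2.gen_seeds (ℓ := 4 * r ^ 2) (Finset.univ.image vv)
      (Pool.Agent.H530R2.symM_supp A₀ vv a b)
      (fun i => (Finset.univ.filter fun e => vv e = i).card) (r ^ 3) r (r ^ 3)
      (by
        rw [← Finset.card_eq_sum_card_fiberwise (f := vv) (s := Finset.univ)
          (t := Finset.univ) (fun _ _ => Finset.mem_coe.2 (Finset.mem_univ _))]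
        simpa using hs') hr hf0
      ((Pool.Agent.H530R2.symM_totalDegree A₀ vv a b).trans hs')
      (fun V hV hVw => by
        refine Pool.Agent.H530R2.symM_compress A₀ vv a b V hV (2 * (r - 1)) _ ?_ ?_
        · refine le_trans (le_of_eq ?_) hVw
          rw [Finset.card_eq_sum_card_fiberwise (f := vv) (t := V)
            (fun e he => by simpa using he)]
          apply Finset.sum_congr rfl
          intro i hi
          congr 1
          ext e
          simp only [Finset.mem_filter, Finset.mem_univ, true_and]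
          constructor
          · exact fun h => h.2
          · exact fun h => ⟨by rw [h]; exact hi, h⟩
        · obtain ⟨r', rfl⟩ : ∃ r', r = r' + 1 := ⟨r - 1, by omega⟩
          rw [Nat.add_sub_cancel]
          nlinarith)
  obtain ⟨β, hβ⟩ := Pool.Agent.H530R2.exists_breaks bl hbl
  obtain ⟨pos, hpos1, hpos2⟩ := Pool.Agent.H530R2.exists_slots H hH
  apply hev
  have hcomm : n * (4 * r ^ 2) * r ^ 3 = 4 * r ^ 2 * n * r ^ 3 := by ring
  have hmem : point pos (fun l => if h : (pos l : ℕ) < n then v ⟨pos l, h⟩ else 0) β y u ∈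
      points n r := by
    unfold points
    rw [Finset.mem_image]
    refine ⟨⟨pos, fun l => ⟨if h : (pos l : ℕ) < n then v ⟨pos l, h⟩ else 0, ?_⟩, β,
      fun k => ⟨y k, Nat.lt_succ_of_le (hy k)⟩,
      fun c => ⟨u c, Nat.lt_succ_of_le (by rw [← hcomm]; exact hu c)⟩⟩, Finset.mem_univ _, rfl⟩
    split_ifs
    · exact Nat.lt_succ_of_le (hv _)
    · omega
  rw [← hcon' _ hmem]
  congr 2
  funext i
  have hblk : block β i = bl i := Fin.ext (hβ i)
  simp only [point]
  by_cases hi : i ∈ H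
  · obtain ⟨l, hl⟩ := (hpos1 i).2 hi
    rw [if_pos hi, if_pos ⟨l, hl⟩, Finset.sum_eq_single l]
    · rw [if_pos hl]
      have h1 : (pos l : ℕ) < n := by rw [hl]; exact i.isLt
      have h2 : (⟨pos l, h1⟩ : Fin n) = i := Fin.ext hl
      rw [dif_pos h1, h2]
      simp
    · intro l' _ hne'
      rw [if_neg]
      intro h
      exact hne' (hpos2 i l' l h hl)
    · simp
  · rw [if_neg hi, if_neg (fun h => hi ((hpos1 i).1 h)), hblk]
    push_cast
    rfl

end Pool.Agent.Results.MP_64d474_lc.SubexponentialSDIT
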