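import Mathlib
import Pool.Agent.H533R2.SymSdit

/-!
# Symmetric symbolic matrices whose coefficient matrices have rank at most two or are
anisotropic modulo their kernel, with at most two exceptions

For such a symbolic matrix `A = ∑ x_k A_k` over a field of characteristic different from two we
prove the Edmonds-Rado property: the generic rank of `A` equals
`min_U (n - dim U + dim ∑_k A_k U)`, the minimum running over all subspaces `U` of `K^n`;
in particular `det A = 0` if and only if there is a subspace `U` of `K^n` with
`dim (∑_k A_k U) < dim U`.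
-/

open MvPolynomial Matrix

namespace Pool.Agent.Results.MP_64d474_lc.SymmetricMinMax

open Pool.Agent.H533R2.SymSdit

/-- The symbolic matrix `∑ k, x_k A_k` with entries in `K[x_k : k ∈ σ]`. -/
noncomputable def symbolicMatrix {K n σ : Type*} [Field K] [Fintype σ]
    (A : σ → Matrix n n K) : Matrix n n (MvPolynomial σ K) :=
  ∑ k, (X k : MvPolynomial σ K) • (A k).map C

/-- The generic rank: the rank over the field of rational functions. -/
noncomputable def genericRank {K n σ : Type*} [Field K] [Fintype n] [Fintype σ]
    (A : σ → Matrix n n K) : ℕ :=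
  ((symbolicMatrix A).map
    (algebraMap (MvPolynomial σ K) (FractionRing (MvPolynomial σ K)))).rank

/-- The subspace `∑ k, A_k U` of `K^n`. -/
noncomputable def imageSpace {K n σ : Type*} [Field K] [Fintype n] [Fintype σ]
    (A : σ → Matrix n n K) (U : Submodule K (n → K)) : Submodule K (n → K) :=
  ⨆ k, U.map (A k).mulVecLin

/-- homogeneous families as affine families -/
def aff {K n σ : Type*} [Field K] (A : σ → Matrix n n K) : Option σ → Matrix n n K
  | none => 0
  | some k => A k

theorem symb_aff {K n σ : Type*} [Field K] [Fintype n] [Fintype σ] (A : σ → Matrix n n K) :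
    symb (aff A) = symbolicMatrix A := by
  ext1 i j
  simp only [symb, symbolicMatrix, Matrix.sum_apply, Matrix.smul_apply, Matrix.map_apply,
    Fintype.sum_option, aff, ff, Matrix.zero_apply, C_0, zero_mul, zero_add, smul_eq_mul]
  exact Finset.sum_congr rfl fun k _ => mul_comm _ _

theorem img_aff {K n σ : Type*} [Field K] [Fintype n] [Fintype σ] (A : σ → Matrix n n K)
    (U : Submodule K (n → K)) : img (aff A) U = imageSpace A U := by
  rw [img, imageSpace]
  apply le_antisymm
  · refine iSup_le fun k => ?_
    rcases k with _ | k
    · rintro _ ⟨u, -, rfl⟩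
      simp [aff]
    · exact le_iSup (fun k => U.map (A k).mulVecLin) k
  · exact iSup_le fun k => le_iSup (fun k => U.map (aff A k).mulVecLin) (some k)

theorem result {K : Type*} [Field K] (h2 : (2 : K) ≠ 0)
    {n σ : Type*} [Fintype n] [DecidableEq n] [Fintype σ]
    (A : σ → Matrix n n K) (hsymm : ∀ k, (A k).IsSymm)
    (E : Finset σ) (hE : E.card ≤ 2)
    (hgood : ∀ k, k ∉ E →
      (A k).rank ≤ 2 ∨ ∀ y : n → K, y ⬝ᵥ (A k *ᵥ y) = 0 → A k *ᵥ y = 0) :
    (∀ U : Submodule K (n → K),
        genericRank A + Module.finrank K U ≤
          Fintype.card n + Module.finrank K (imageSpace A U)) ∧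
    (∃ U : Submodule K (n → K),
        genericRank A + Module.finrank K U =
          Fintype.card n + Module.finrank K (imageSpace A U)) ∧
    ((symbolicMatrix A).det = 0 ↔
      ∃ U : Submodule K (n → K),
        Module.finrank K (imageSpace A U) < Module.finrank K U) := by
  classical
  have hA : ∀ k, (aff A k).IsSymm := by
    rintro (_ | k)
    · exact Matrix.isSymm_zero
    · exact hsymm k
  have hE' : (E.map Function.Embedding.some).card ≤ 2 := by rwa [Finset.card_map]
  have hg : ∀ k ∉ E.map Function.Embedding.some, Good (aff A k) := by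
    rintro (_ | k) hk
    · refine Or.inl ?_
      show (0 : Matrix n n K).rank ≤ 2
      rw [Matrix.rank_zero]; omega
    · refine hgood k fun h => hk ?_
      rw [Finset.mem_map]
      exact ⟨k, h, rfl⟩
  have hle : ∀ U : Submodule K (n → K),
        genericRank A + Module.finrank K U ≤
          Fintype.card n + Module.finrank K (imageSpace A U) := by
    intro U
    have := rank_le (aff A) U
    rwa [symb_aff, img_aff] at this
  have heq := main (aff A) hA h2 _ hE' hg
  rw [symb_aff, img_aff] at heq
  refine ⟨hle, ⟨_, heq⟩, ?_, ?_⟩
  · intro hdet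
    refine ⟨LL (aff A), ?_⟩
    have := rank_lt_of_det_eq_zero (aff A) (by rw [symb_aff]; exact hdet)
    rw [symb_aff] at this
    omega
  · rintro ⟨U, hU⟩
    have h1 := hle U
    have := det_eq_zero_of_rank_lt (aff A) (by
      rw [symb_aff]
      show genericRank A < _
      omega)
    rwa [symb_aff] at this

end Pool.Agent.Results.MP_64d474_lc.SymmetricMinMax
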